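import Pool.Agent.H13.LN.Targets

/-!
# Row BLV of the board `lnt_modules`: the blocks of a knot
-/

set_option autoImplicit false

namespace Pool.Agent.H99.LNT

open Finset Pool.Agent.H59.LIN Pool.Agent.H13.LN

/-- a bijection with one orbit -/
theorem orb_one {α : Type} [Fintype α] (g : α → α) (hg : Function.Injective g) (o p : α)
    (h : ∀ q, ∃ k, g^[k] o = q) :
    g^[Fintype.card α] p = p ∧ ∀ q, ∃ j, j < Fintype.card α ∧ g^[j] p = q := by
  have hp := hg.mem_periodicPts p
  have ho := hg.mem_periodicPts o
  have hpp := Function.minimalPeriod_pos_of_mem_periodicPts hp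
  have hop := Function.minimalPeriod_pos_of_mem_periodicPts ho
  have all : ∀ q, ∃ j, j < Function.minimalPeriod g p ∧ g^[j] p = q := by
    intro q
    obtain ⟨a, ha⟩ := h p
    obtain ⟨k, hk⟩ := h q
    have e : g^[k + a * Function.minimalPeriod g o] o = q := by
      rw [← Function.iterate_mod_minimalPeriod_eq, Nat.add_mul_mod_self_right,
        Function.iterate_mod_minimalPeriod_eq, hk]
    have hle : a ≤ k + a * Function.minimalPeriod g o :=
      (Nat.le_mul_of_pos_right a hop).trans (Nat.le_add_left _ _)
    obtain ⟨c, hc⟩ := Nat.exists_eq_add_of_le' hle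
    rw [hc, Function.iterate_add_apply, ha] at e
    refine ⟨c % Function.minimalPeriod g p, Nat.mod_lt _ hpp, ?_⟩
    rw [Function.iterate_mod_minimalPeriod_eq, e]
  have card : Fintype.card α = Function.minimalPeriod g p := by
    have hb : Function.Bijective
        (fun j : Fin (Function.minimalPeriod g p) => g^[(j : ℕ)] p) := by
      constructor
      · intro i j hij
        exact Fin.ext (Function.iterate_injOn_Iio_minimalPeriod i.2 j.2 hij)
      · intro q
        obtain ⟨j, hj, e⟩ := all q
        exact ⟨⟨j, hj⟩, e⟩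
    have := Fintype.card_of_bijective hb
    rw [Fintype.card_fin] at this
    exact this.symm
  rw [card]
  exact ⟨Function.iterate_minimalPeriod, all⟩

theorem blv (hRUN : T_RUN) (hEVA : T_EVA) (hEVP : T_EVP) (hPRL : T_PRL) : T_BLV := by
  intro n f p hf
  obtain ⟨-, r2, -⟩ := hRUN
  have hb : Function.Bijective (run f) := r2 n Bool f
  obtain ⟨c1, c2⟩ := orb_one (run f) hb.injective 0 p hf
  rw [Fintype.card_fin] at c1 c2
  have c3 : ∀ q, ∃ j : Fin (n + 1), (run f)^[(j : ℕ)] p = q := fun q => by
    obtain ⟨j, hj, e⟩ := c2 q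
    exact ⟨⟨j, hj⟩, e⟩
  have hsur : Function.Surjective (fun j : Fin (n + 1) => (run f)^[(j : ℕ)] p) := c3
  have hbij : Function.Bijective (fun j : Fin (n + 1) => (run f)^[(j : ℕ)] p) :=
    ⟨Finite.injective_iff_surjective.2 hsur, hsur⟩
  have hlen : (blk f p).length = n + 1 := by
    rw [blk, List.length_ofFn]
  refine ⟨⟨?_, ?_, ?_⟩, hlen, ?_, c3, c1⟩
  · intro h0
    rw [h0] at hlen
    simp at hlen
  · intro b hb'
    rw [blk, List.mem_ofFn] at hb'
    obtain ⟨j, rfl⟩ := hb'
    exact (hEVA.2.2 n 0 f _).1
  · intro k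
    have e1 : (blk f p).flatten.count k = ∑ q : Fin (n + 1), (ev 0 f q).count k := by
      rw [List.count_flatten, blk, List.map_ofFn, List.sum_ofFn]
      exact Fintype.sum_bijective _ hbij _ _ fun j => rfl
    have e2 : ∀ q : Fin (n + 1), (ev 0 f q).count k = if k ∈ ev 0 f q then 1 else 0 := by
      intro q
      have hnd : (ev 0 f q).Nodup := (hEVA.2.2 n 0 f q).1.imp fun h => ne_of_lt h
      exact List.Nodup.count hnd
    rw [e1, Finset.sum_congr rfl fun q _ => e2 q]
    by_cases hk : k < nd f
    · have hlen' : (pr (Equiv.refl _) f).length = nd f := hPRL.2.2.1 n _ f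
      have hk' : k < (pr (Equiv.refl _) f).length := by rw [hlen']; exact hk
      obtain ⟨x, hx⟩ : ∃ x, x = (pr (Equiv.refl _) f)[k] := ⟨_, rfl⟩
      have hxe : (pr (Equiv.refl _) f)[k]? = some x := by
        rw [hx]
        exact List.getElem?_eq_getElem hk'
      have hne : x.1 ≠ x.2 := hPRL.2.2.2 n _ f x (by rw [hx]; exact List.getElem_mem hk')
      have e3 : ∀ q : Fin (n + 1), k ∈ ev 0 f q ↔ q = x.1 ∨ q = x.2 := by
        intro q
        rw [hEVP n f q k, hxe]
        constructor
        · rintro ⟨y, hy, h⟩
          rw [Option.some_inj] at hy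
          rw [hy]
          exact h
        · intro h
          exact ⟨x, rfl, h⟩
      rw [if_pos hk, Finset.sum_boole]
      have e4 : (univ.filter fun q : Fin (n + 1) => k ∈ ev 0 f q) = {x.1, x.2} := by
        ext q
        rw [Finset.mem_filter, e3 q, Finset.mem_insert, Finset.mem_singleton]
        simp
      rw [e4, Finset.card_pair hne]
      rfl
    · rw [if_neg hk]
      refine Finset.sum_eq_zero fun q _ => ?_
      rw [if_neg]
      intro h
      have := ((hEVA.2.2 n 0 f q).2 k h).2
      omega
  · refine List.ext_getElem ?_ fun j h1 h2 => ?_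
    · rw [List.length_rotate, blk, blk, List.length_ofFn, List.length_ofFn]
    · rw [List.getElem_rotate]
      simp only [blk, List.getElem_ofFn, List.length_ofFn]
      have hj : j < n + 1 := by
        rw [blk, List.length_ofFn] at h1
        exact h1
      rw [← Function.iterate_succ_apply]
      refine congrArg (ev 0 f) ?_
      by_cases hjn : j + 1 < n + 1
      · rw [Nat.mod_eq_of_lt hjn]
      · have : j + 1 = n + 1 := by omega
        rw [this, Nat.mod_self]
        change (run f)^[j + 1] p = p
        rw [this]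
        exact c1

end Pool.Agent.H99.LNT
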