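import Pool.Agent.H13.LN.Targets

/-!
# Row FGC of the board `lnt_modules`: the group of chord diagrams is finitely generated
-/

set_option autoImplicit false

namespace Pool.Agent.H99.LNT

open Finset Pool.Agent.H59.LIN Pool.Agent.H13.LN

theorem fgc_count (l : List ℕ) (f : ℕ → ℕ) (hf : Set.InjOn f {a | a ∈ l}) (a : ℕ) (ha : a ∈ l) :
    (l.map f).count (f a) = l.count a := by
  rw [List.count, List.countP_map, List.count]
  refine List.countP_congr fun b hb => ?_
  simp only [Function.comp_apply, beq_iff_eq]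
  exact ⟨fun h => hf hb ha h, fun h => by rw [h]⟩

theorem fgc_map {d : ℕ} (l : List ℕ) (f : ℕ → ℕ) (hf : Set.InjOn f {a | a ∈ l}) (hl : Gw d l) :
    Gw d (l.map f) := by
  refine ⟨by rw [List.length_map, hl.1], fun x hx => ?_⟩
  obtain ⟨a, ha, rfl⟩ := List.mem_map.1 hx
  rw [fgc_count l f hf a ha, hl.2 a ha]

theorem fgc_fin (N : ℕ) : {l : List ℕ | l.length = N ∧ ∀ a ∈ l, a < N}.Finite := by
  refine (Set.finite_range (fun g : Fin N → Fin N => List.ofFn fun i => (g i : ℕ))).subset ?_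
  rintro l ⟨h1, h2⟩
  subst h1
  refine ⟨fun i => ⟨l[(i : ℕ)], h2 _ (List.getElem_mem i.2)⟩, ?_⟩
  exact List.ofFn_getElem

theorem fgc : T_FGC := by
  intro d
  rw [AddGroup.fg_iff]
  obtain ⟨S, hS⟩ : ∃ S : Set (GW d), S = {l : GW d | ∀ a ∈ l.1, a < 2 * d} := ⟨_, rfl⟩
  have hfin : S.Finite := by
    have h1 := (fgc_fin (2 * d)).preimage (f := fun l : GW d => l.1)
      (Subtype.val_injective.injOn)
    refine h1.subset ?_
    intro l hl
    rw [hS] at hl
    exact ⟨l.2.1, hl⟩
  refine ⟨(fun l : GW d => (QuotientAddGroup.mk (Finsupp.single l 1) : Chd d)) '' S, ?_,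
    hfin.image _⟩
  rw [eq_top_iff]
  rintro x -
  obtain ⟨y, rfl⟩ := QuotientAddGroup.mk_surjective x
  induction y using Finsupp.induction_linear with
  | zero => exact AddSubgroup.zero_mem _
  | add y z hy hz => exact AddSubgroup.add_mem _ hy hz
  | single l n =>
    have e1 : (Finsupp.single l n : GW d →₀ ℤ) = n • Finsupp.single l 1 := by
      rw [Finsupp.smul_single, smul_eq_mul, mul_one]
    rw [e1, QuotientAddGroup.mk_zsmul]
    refine AddSubgroup.zsmul_mem _ ?_ n
    have hf : Set.InjOn (fun a => l.1.idxOf a) {a | a ∈ l.1} := fun a ha b _ hab =>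
      (List.idxOf_inj ha).1 hab
    obtain ⟨l', hl'⟩ : ∃ l' : GW d, l'.1 = l.1.map fun a => l.1.idxOf a :=
      ⟨⟨_, fgc_map l.1 _ hf l.2⟩, rfl⟩
    have hr := Rel.relab l l' _ hf hl'
    have e2 : (QuotientAddGroup.mk (Finsupp.single l 1) : Chd d) =
        QuotientAddGroup.mk (Finsupp.single l' 1) := by
      rw [QuotientAddGroup.eq, ← sub_eq_neg_add]
      exact AddSubgroup.subset_closure hr
    rw [e2]
    refine AddSubgroup.subset_closure ⟨l', ?_, rfl⟩
    rw [hS]
    intro a ha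
    rw [hl'] at ha
    obtain ⟨b, hb, rfl⟩ := List.mem_map.1 ha
    rw [← l.2.1]
    exact List.idxOf_lt_length_iff.2 hb

end Pool.Agent.H99.LNT
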