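import Pool.Agent.H13.LN.Targets

/-!
# Row FGQ of the board `lnt_modules`: the quotients are finitely generated
-/

set_option autoImplicit false

namespace Pool.Agent.H99.LNT

open Finset Pool.Agent.H59.LIN Pool.Agent.H13.LN

theorem fgq (U : Type) [AddCommGroup U] (F : ℕ → AddSubgroup U) (A : ℕ → Type)
    [∀ d, AddCommGroup (A d)] : T_FGQ U F A := by
  intro S d
  rw [← Module.Finite.iff_addGroup_fg]
  induction d with
  | zero =>
    have h : Subsingleton (U ⧸ F 0) := by
      rw [S.zero]
      exact QuotientAddGroup.subsingleton_quotient_top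
    exact inferInstance
  | succ d ih =>
    have hA : Module.Finite ℤ (A d) := Module.Finite.iff_addGroup_fg.2 (S.fg d)
    obtain ⟨g, hg⟩ : ∃ g : A d →ₗ[ℤ] U ⧸ F (d + 1), ∀ a, g a = S.φ d a :=
      ⟨(S.φ d).toIntLinearMap, fun _ => rfl⟩
    have h1 : Module.Finite ℤ (LinearMap.range g) := inferInstance
    have h2 : Module.Finite ℤ ((U ⧸ F (d + 1)) ⧸ LinearMap.range g) := by
      let q : U →+ (U ⧸ F (d + 1)) ⧸ LinearMap.range g :=
        (LinearMap.range g).mkQ.toAddMonoidHom.comp (QuotientAddGroup.mk' (F (d + 1)))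
      have hq : ∀ x ∈ F d, q x = 0 := by
        intro x hx
        obtain ⟨a, ha⟩ := (S.rng d x).1 hx
        have : (QuotientAddGroup.mk x : U ⧸ F (d + 1)) ∈ LinearMap.range g := ⟨a, by rw [hg, ha]⟩
        exact (Submodule.Quotient.mk_eq_zero _).2 this
      let r : U ⧸ F d →+ (U ⧸ F (d + 1)) ⧸ LinearMap.range g := QuotientAddGroup.lift (F d) q hq
      refine Module.Finite.of_surjective r.toIntLinearMap ?_
      intro y
      obtain ⟨z, rfl⟩ := Submodule.Quotient.mk_surjective _ y
      obtain ⟨x, rfl⟩ := QuotientAddGroup.mk_surjective z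
      exact ⟨QuotientAddGroup.mk x, rfl⟩
    exact Module.Finite.of_submodule_quotient (LinearMap.range g)

end Pool.Agent.H99.LNT
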