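import Pool.Agent.H13.LN.Targets

/-!
# Row STR of the board `lnt_modules`: multiples of `p`
-/

set_option autoImplicit false

namespace Pool.Agent.H99.LNT

open Finset Pool.Agent.H59.LIN Pool.Agent.H13.LN

theorem str_aux1 (p : ℕ) [Fact p.Prime] (Q : Type) [AddCommGroup Q] [Module (ZMod p) Q] (x : Q)
    (h : ∀ W : Q →+ ZMod p, W x = 0) : x = 0 := by
  refine (Module.forall_dual_apply_eq_zero_iff (ZMod p) x).1 fun f => ?_
  exact h f.toAddMonoidHom

theorem str_aux (Q : Type) [AddCommGroup Q] (p : ℕ) (hp : p.Prime) (hN : ∀ x : Q, p • x = 0)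
    (x : Q) (h : ∀ W : Q →+ ZMod p, W x = 0) : x = 0 := by
  have : Fact p.Prime := ⟨hp⟩
  exact @str_aux1 p this Q _ (AddCommGroup.zmodModule hN) x h

/-- an element on which all homomorphisms to `ZMod p` vanish is a multiple of `p` -/
theorem str_dual (B : Type) [AddCommGroup B] (p : ℕ) (hp : p.Prime) (a : B)
    (h : ∀ W : B →+ ZMod p, W a = 0) : ∃ a' : B, a = p • a' := by
  by_contra hn
  let N : AddSubgroup B := (nsmulAddMonoidHom (α := B) p).range
  have hN : ∀ x : B ⧸ N, p • x = 0 := by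
    intro x
    obtain ⟨y, rfl⟩ := QuotientAddGroup.mk_surjective x
    rw [← QuotientAddGroup.mk_nsmul, QuotientAddGroup.eq_zero_iff]
    exact ⟨y, rfl⟩
  have ha : (QuotientAddGroup.mk a : B ⧸ N) ≠ 0 := by
    intro h0
    rw [QuotientAddGroup.eq_zero_iff] at h0
    obtain ⟨a', ha'⟩ := h0
    exact hn ⟨a', ha'.symm⟩
  apply ha
  exact str_aux (B ⧸ N) p hp hN _ fun W => h (W.comp (QuotientAddGroup.mk' N))

theorem str (U : Type) [AddCommGroup U] (F : ℕ → AddSubgroup U) (A : ℕ → Type)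
    [∀ d, AddCommGroup (A d)] : T_STR U F A := by
  intro S p hp hY
  have step : ∀ (d : ℕ) (x : U), p • x ∈ F d → ∃ y ∈ F d, p • x - p • y ∈ F (d + 1) := by
    intro d x hx
    obtain ⟨a, ha⟩ := (S.rng d (p • x)).1 hx
    obtain ⟨a', rfl⟩ := str_dual (A d) p hp a (fun W => by
      obtain ⟨v, hv⟩ := hY d W
      rw [← hv a, ha, QuotientAddGroup.mk_nsmul, map_nsmul, nsmul_eq_mul, CharP.cast_eq_zero,
        zero_mul])
    obtain ⟨y, hy⟩ := QuotientAddGroup.mk_surjective (S.φ d a')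
    refine ⟨y, (S.rng d y).2 ⟨a', hy.symm⟩, ?_⟩
    rw [map_nsmul, ← hy, ← QuotientAddGroup.mk_nsmul, QuotientAddGroup.eq] at ha
    rw [sub_eq_neg_add]
    exact ha
  have anti : ∀ d M : ℕ, d ≤ M → F M ≤ F d := by
    intro d M h
    induction M, h using Nat.le_induction with
    | base => exact le_rfl
    | succ M _ ih => exact (S.anti M).trans ih
  intro d M hdM x hx
  induction M, hdM using Nat.le_induction with
  | base => exact ⟨0, (F d).zero_mem, p • x, hx, by rw [smul_zero, zero_add]⟩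
  | succ M hM ih =>
    obtain ⟨y, hy, z, hz, e⟩ := ih
    have e1 : z = p • (x - y) := by rw [smul_sub, e]; abel
    rw [e1] at hz
    obtain ⟨y', hy', h'⟩ := step M (x - y) hz
    refine ⟨y + y', (F d).add_mem hy (anti d M hM hy'), _, h', ?_⟩
    rw [smul_sub, smul_add]
    abel

end Pool.Agent.H99.LNT
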