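import Pool.Agent.H13.LN.Targets

/-!
# Row TFP of the board `lnt_modules`: torsion and torsion of prime order
-/

set_option autoImplicit false

namespace Pool.Agent.H99.LNT

open Finset Pool.Agent.H59.LIN Pool.Agent.H13.LN

theorem tfp : T_TFP := by
  intro A _
  constructor
  · intro h p hp x hx
    refine h x p (by exact_mod_cast hp.ne_zero) ?_
    rw [natCast_zsmul]
    exact hx
  · intro h
    have key : ∀ n : ℕ, n ≠ 0 → ∀ x : A, n • x = 0 → x = 0 := by
      intro n
      induction n using Nat.strong_induction_on with
      | _ n ih =>
        intro hn x hx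
        by_cases h1 : n = 1
        · rw [h1, one_nsmul] at hx
          exact hx
        · obtain ⟨p, hp, m, rfl⟩ := Nat.exists_prime_and_dvd h1
          have hm : m ≠ 0 := by
            rintro rfl
            exact hn (mul_zero p)
          refine ih m ?_ hm x (h p hp (m • x) ?_)
          · have := hp.two_le
            have hm' : 0 < m := Nat.pos_of_ne_zero hm
            nlinarith
          · rw [← mul_smul]
            exact hx
    intro x m hm hx
    refine key m.natAbs (Int.natAbs_ne_zero.2 hm) x ?_
    rw [← natCast_zsmul]
    rcases Int.natAbs_eq m with h1 | h1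
    · rw [← h1]
      exact hx
    · have h2 : ((m.natAbs : ℕ) : ℤ) = -m := by omega
      rw [h2, neg_smul, hx, neg_zero]

end Pool.Agent.H99.LNT
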